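import Mathlib

/-!
# MP_3d4e6a_al: the soluble graph of a finite group (definitions)
-/

namespace Pool.Agent.Lib.MP_3d4e6a_al

/-- The soluble radical of `G`: the subgroup generated by all soluble normal subgroups. For a finite
group this is the largest soluble normal subgroup. -/
def solRadical (G : Type*) [Group G] : Subgroup G :=
  sSup {N : Subgroup G | N.Normal ∧ Group.IsSolvable N}

/-- The soluble graph of `G`: the vertices are the elements outside the soluble radical, and distinct
vertices `x`, `y` are adjacent when the subgroup generated by `x` and `y` is soluble. -/
def solGraph (G : Type*) [Group G] : SimpleGraph {x : G // x ∉ solRadical G} where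
  Adj x y := x ≠ y ∧ Group.IsSolvable (Subgroup.closure {(x : G), (y : G)})
  symm := by
    constructor
    intro x y h
    refine ⟨h.1.symm, ?_⟩
    rw [Set.pair_comm]
    exact h.2
  loopless := by
    constructor
    intro x h
    exact h.1 rfl

/-- `N` is the unique minimal normal subgroup of `G`: it is normal, nontrivial, and contained in every
nontrivial normal subgroup. (So `G` is monolithic with socle `N`.) -/
def IsMonolith {G : Type*} [Group G] (N : Subgroup G) : Prop :=
  N.Normal ∧ N ≠ ⊥ ∧ ∀ K : Subgroup G, K.Normal → K ≠ ⊥ → N ≤ K

end Pool.Agent.Lib.MP_3d4e6a_al
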