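import Mathlib
import Pool.Agent.Lib.MP_3d4e6a_al.Defs

section

/-!
# MP_3d4e6a_al: arithmetic of the order of the Monster
-/

namespace Pool.Agent.Lib.MP_3d4e6a_al

/-- The order of the Monster. -/
abbrev mOrd : ℕ := 808017424794512875886459904961710757005754368000000000

theorem mOrd_eq : mOrd = 2 ^ 46 * 3 ^ 20 * 5 ^ 9 * 7 ^ 6 * 11 ^ 2 * 13 ^ 3 * 17 * 19 * 23 * 29 *
    31 * 41 * 47 * 59 * 71 := by norm_num [mOrd]

theorem prime_mem {r : ℕ} (hr : r.Prime) (h : r ∣ mOrd) :
    r = 2 ∨ r = 3 ∨ r = 5 ∨ r = 7 ∨ r = 11 ∨ r = 13 ∨ r = 17 ∨ r = 19 ∨ r = 23 ∨ r = 29 ∨ r = 31 ∨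
      r = 41 ∨ r = 47 ∨ r = 59 ∨ r = 71 := by
  rw [mOrd_eq] at h
  have key : ∀ q e : ℕ, q.Prime → r ∣ q ^ e → r = q := fun q e hq h' =>
    (Nat.prime_dvd_prime_iff_eq hr hq).mp (hr.dvd_of_dvd_pow h')
  have key1 : ∀ q : ℕ, q.Prime → r ∣ q → r = q := fun q hq h' =>
    (Nat.prime_dvd_prime_iff_eq hr hq).mp h'
  simp only [hr.dvd_mul] at h
  rcases h with (((((((((((((h | h) | h) | h) | h) | h) | h) | h) | h) | h) | h) | h) | h) | h) | h
  · simp [key 2 46 (by norm_num) h]
  · simp [key 3 20 (by norm_num) h]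
  · simp [key 5 9 (by norm_num) h]
  · simp [key 7 6 (by norm_num) h]
  · simp [key 11 2 (by norm_num) h]
  · simp [key 13 3 (by norm_num) h]
  · simp [key1 17 (by norm_num) h]
  · simp [key1 19 (by norm_num) h]
  · simp [key1 23 (by norm_num) h]
  · simp [key1 29 (by norm_num) h]
  · simp [key1 31 (by norm_num) h]
  · simp [key1 41 (by norm_num) h]
  · simp [key1 47 (by norm_num) h]
  · simp [key1 59 (by norm_num) h]
  · simp [key1 71 (by norm_num) h]

theorem exp_le {r m e : ℕ} (h : r ^ m ∣ mOrd) (h' : ¬ r ^ (e + 1) ∣ mOrd) : m ≤ e := by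
  by_contra hc
  exact h' ((pow_dvd_pow r (by omega)).trans h)

theorem ar59 {r m : ℕ} (hr : r.Prime) (h : r ^ m ∣ mOrd) (hm : 1 ≤ m) (h1 : r ^ m ≡ 1 [MOD 59]) :
    False := by
  have hrd : r ∣ mOrd := (dvd_pow_self r (by omega)).trans h
  rcases prime_mem hr hrd with rfl | rfl | rfl | rfl | rfl | rfl | rfl | rfl | rfl | rfl | rfl |
    rfl | rfl | rfl | rfl
  · have := exp_le (e := 46) h (by norm_num [mOrd]); interval_cases m <;> revert h1 <;> decide
  · have := exp_le (e := 20) h (by norm_num [mOrd]); interval_cases m <;> revert h1 <;> decide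
  · have := exp_le (e := 9) h (by norm_num [mOrd]); interval_cases m <;> revert h1 <;> decide
  · have := exp_le (e := 6) h (by norm_num [mOrd]); interval_cases m <;> revert h1 <;> decide
  · have := exp_le (e := 2) h (by norm_num [mOrd]); interval_cases m <;> revert h1 <;> decide
  · have := exp_le (e := 3) h (by norm_num [mOrd]); interval_cases m <;> revert h1 <;> decide
  · have := exp_le (e := 1) h (by norm_num [mOrd]); interval_cases m <;> revert h1 <;> decide
  · have := exp_le (e := 1) h (by norm_num [mOrd]); interval_cases m <;> revert h1 <;> decide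
  · have := exp_le (e := 1) h (by norm_num [mOrd]); interval_cases m <;> revert h1 <;> decide
  · have := exp_le (e := 1) h (by norm_num [mOrd]); interval_cases m <;> revert h1 <;> decide
  · have := exp_le (e := 1) h (by norm_num [mOrd]); interval_cases m <;> revert h1 <;> decide
  · have := exp_le (e := 1) h (by norm_num [mOrd]); interval_cases m <;> revert h1 <;> decide
  · have := exp_le (e := 1) h (by norm_num [mOrd]); interval_cases m <;> revert h1 <;> decide
  · have := exp_le (e := 1) h (by norm_num [mOrd]); interval_cases m <;> revert h1 <;> decide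
  · have := exp_le (e := 1) h (by norm_num [mOrd]); interval_cases m <;> revert h1 <;> decide

theorem ar29 {r m : ℕ} (hr : r.Prime) (h : r ^ m ∣ mOrd) (hm : 1 ≤ m) (h1 : r ^ m ≡ 1 [MOD 29]) :
    (r = 2 ∧ m = 28) ∨ (r = 59 ∧ m = 1) := by
  have hrd : r ∣ mOrd := (dvd_pow_self r (by omega)).trans h
  rcases prime_mem hr hrd with rfl | rfl | rfl | rfl | rfl | rfl | rfl | rfl | rfl | rfl | rfl |
    rfl | rfl | rfl | rfl
  · have := exp_le (e := 46) h (by norm_num [mOrd]); interval_cases m <;> revert h1 <;> decide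
  · have := exp_le (e := 20) h (by norm_num [mOrd]); interval_cases m <;> revert h1 <;> decide
  · have := exp_le (e := 9) h (by norm_num [mOrd]); interval_cases m <;> revert h1 <;> decide
  · have := exp_le (e := 6) h (by norm_num [mOrd]); interval_cases m <;> revert h1 <;> decide
  · have := exp_le (e := 2) h (by norm_num [mOrd]); interval_cases m <;> revert h1 <;> decide
  · have := exp_le (e := 3) h (by norm_num [mOrd]); interval_cases m <;> revert h1 <;> decide
  · have := exp_le (e := 1) h (by norm_num [mOrd]); interval_cases m <;> revert h1 <;> decide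
  · have := exp_le (e := 1) h (by norm_num [mOrd]); interval_cases m <;> revert h1 <;> decide
  · have := exp_le (e := 1) h (by norm_num [mOrd]); interval_cases m <;> revert h1 <;> decide
  · have := exp_le (e := 1) h (by norm_num [mOrd]); interval_cases m <;> revert h1 <;> decide
  · have := exp_le (e := 1) h (by norm_num [mOrd]); interval_cases m <;> revert h1 <;> decide
  · have := exp_le (e := 1) h (by norm_num [mOrd]); interval_cases m <;> revert h1 <;> decide
  · have := exp_le (e := 1) h (by norm_num [mOrd]); interval_cases m <;> revert h1 <;> decide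
  · have := exp_le (e := 1) h (by norm_num [mOrd]); interval_cases m <;> revert h1 <;> decide
  · have := exp_le (e := 1) h (by norm_num [mOrd]); interval_cases m <;> revert h1 <;> decide

end Pool.Agent.Lib.MP_3d4e6a_al
end

section

/-!
# MP_3d4e6a_al: general lemmas on finite groups
-/

namespace Pool.Agent.Lib.MP_3d4e6a_al

open Subgroup
open scoped commutatorElement

/-- A nontrivial finite soluble group has a nontrivial normal elementary abelian `r`-subgroup. -/
theorem elemNormal (H : Type*) [Group H] [Finite H] [Nontrivial H] [Group.IsSolvable H] :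
    ∃ (r : ℕ) (R : Subgroup H), r.Prime ∧ R.Normal ∧ R ≠ ⊥ ∧ (∀ g ∈ R, g ^ r = 1) ∧
      (∀ g ∈ R, ∀ h ∈ R, g * h = h * g) := by
  classical
  obtain ⟨n, hn⟩ := (Group.isSolvable_def H).mp inferInstance
  have hex : ∃ n, derivedSeries H n = ⊥ := ⟨n, hn⟩
  set k := Nat.find hex with hk
  have hk0 : k ≠ 0 := by
    intro h0
    have h1 : derivedSeries H k = ⊥ := Nat.find_spec hex
    rw [h0, derivedSeries_zero] at h1
    exact top_ne_bot h1
  obtain ⟨m, hm⟩ := Nat.exists_eq_succ_of_ne_zero hk0
  have hA0 : derivedSeries H m ≠ ⊥ := Nat.find_min hex (by omega)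
  have hA1 : derivedSeries H (m + 1) = ⊥ := by
    have := Nat.find_spec hex
    rw [← hk, hm] at this
    exact this
  set A := derivedSeries H m with hA
  have hAn : A.Normal := derivedSeries_normal H m
  have hAc : ∀ g ∈ A, ∀ h ∈ A, g * h = h * g := by
    intro g hg h hh
    have : ⁅g, h⁆ ∈ derivedSeries H (m + 1) := by
      rw [derivedSeries_succ]
      exact commutator_mem_commutator hg hh
    rw [hA1, mem_bot] at this
    exact (commutatorElement_eq_one_iff_mul_comm).mp this
  have hAcard : Nat.card A ≠ 1 := by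
    intro h
    exact hA0 (card_eq_one.mp h)
  obtain ⟨r, hr, hrd⟩ := Nat.exists_prime_and_dvd hAcard
  have := Fact.mk hr
  obtain ⟨a, ha⟩ := exists_prime_orderOf_dvd_card' (G := A) r hrd
  let R : Subgroup H :=
    { carrier := {g | g ∈ A ∧ g ^ r = 1}
      one_mem' := ⟨A.one_mem, one_pow r⟩
      mul_mem' := by
        rintro g h ⟨hg, hg'⟩ ⟨hh, hh'⟩
        refine ⟨A.mul_mem hg hh, ?_⟩
        have hc : Commute g h := hAc g hg h hh
        rw [hc.mul_pow, hg', hh', one_mul]
      inv_mem' := by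
        rintro g ⟨hg, hg'⟩
        exact ⟨A.inv_mem hg, by rw [inv_pow, hg', inv_one]⟩ }
  refine ⟨r, R, hr, ⟨?_⟩, ?_, fun g hg => hg.2, fun g hg h hh => hAc g hg.1 h hh.1⟩
  · rintro g ⟨hg, hg'⟩ h
    refine ⟨hAn.conj_mem g hg h, ?_⟩
    rw [conj_pow, hg', mul_one, mul_inv_cancel]
  · intro hR
    have ha' : (a : H) ∈ R := by
      refine ⟨a.2, ?_⟩
      rw [← ha, ← Subgroup.coe_pow, pow_orderOf_eq_one, Subgroup.coe_one]
    rw [hR, mem_bot] at ha'
    have : a = 1 := Subtype.ext ha'
    rw [this, orderOf_one] at ha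
    exact hr.one_lt.ne ha

/-- Counting fixed points of conjugation by an element of prime order. -/
theorem cardFix {T : Type*} [Group T] [Finite T] {p : ℕ} (hp : p.Prime) (u : T) (hu : u ^ p = 1)
    (S : Subgroup T) (hS : u ∈ normalizer (S : Set T)) :
    Nat.card S ≡ Nat.card (S ⊓ centralizer {u} : Subgroup T) [MOD p] := by
  have := Fact.mk hp
  set u' : normalizer (S : Set T) := ⟨u, hS⟩ with hu'
  have hu1 : u' ^ p = 1 := Subtype.ext (by simpa using hu)
  have hpg : IsPGroup p (zpowers u') := by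
    rintro ⟨g, hg⟩
    obtain ⟨k, rfl⟩ := mem_zpowers_iff.mp hg
    refine ⟨1, ?_⟩
    apply Subtype.ext
    simp only [pow_one, SubmonoidClass.coe_pow, coe_one]
    rw [← zpow_natCast, ← zpow_mul, mul_comm, zpow_mul, zpow_natCast, hu1, one_zpow]
  have key := hpg.card_modEq_card_fixedPoints (α := S)
  suffices h : Nat.card (MulAction.fixedPoints (zpowers u') S) =
      Nat.card (S ⊓ centralizer {u} : Subgroup T) by rwa [h] at key
  apply Nat.card_congr
  refine ⟨fun s => ⟨(s : S), ?_⟩, fun s => ⟨⟨(s : T), s.2.1⟩, ?_⟩, fun s => rfl, fun s => rfl⟩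
  · refine mem_inf.mpr ⟨(s : S).2, ?_⟩
    rw [mem_centralizer_iff]
    rintro y rfl
    have h1 := s.2 ⟨u', mem_zpowers u'⟩
    have h2 : y * ((s : S) : T) * y⁻¹ = ((s : S) : T) := congrArg (fun z : S => (z : T)) h1
    calc y * ((s : S) : T) = (y * ((s : S) : T) * y⁻¹) * y := by group
      _ = ((s : S) : T) * y := by rw [h2]
  · have hs := mem_centralizer_iff.mp s.2.2
    have h1 : (s : T) * u = u * (s : T) := (hs u rfl).symm
    rw [MulAction.mem_fixedPoints]
    rintro ⟨g, hg⟩
    obtain ⟨k, rfl⟩ := mem_zpowers_iff.mp hg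
    apply Subtype.ext
    change ((u' ^ k : normalizer (S : Set T)) : T) * (s : T) * ((u' ^ k : normalizer (S : Set T)) : T)⁻¹ = s
    have h2 : ((u' ^ k : normalizer (S : Set T)) : T) = u ^ k := by simp [hu']
    rw [h2]
    have h3 : Commute (s : T) (u ^ k) := Commute.zpow_right h1 k
    rw [← h3.eq, mul_inv_cancel_right]

/-- A subgroup of prime order generated by an element. -/
theorem zpowers_eq_of_card {T : Type*} [Group T] [Finite T] {x : T} {C : Subgroup T}
    (hx : x ∈ C) (hC : Nat.card C = orderOf x) : zpowers x = C := by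
  apply eq_of_le_of_card_ge (zpowers_le.mpr hx)
  rw [hC, Nat.card_zpowers]

/-- `N/C`: for a cyclic subgroup of prime order `p`, `|N| = e |C|` with `e ∣ p - 1`. -/
theorem card_normalizer {T : Type*} [Group T] [Finite T] {p : ℕ} (hp : p.Prime) (x : T)
    (hx : orderOf x = p) :
    ∃ e, e ∣ p - 1 ∧ Nat.card (normalizer (zpowers x : Set T) : Subgroup T) =
      e * Nat.card (centralizer {x} : Subgroup T) := by
  set X := zpowers x with hX
  set f := X.normalizerMonoidHom with hf
  have h1 : Nat.card (normalizer (X : Set T) : Subgroup T) = Nat.card f.range * Nat.card f.ker := by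
    rw [← index_ker f, mul_comm, card_mul_index]
  have hcyc : IsCyclic X := by rw [hX]; infer_instance
  have h2 : Nat.card f.range ∣ p - 1 := by
    have h3 := Subgroup.card_subgroup_dvd_card f.range
    have h6 : Nat.card X = p := by rw [hX, Nat.card_zpowers, hx]
    rw [IsCyclic.card_mulAut, h6, Nat.totient_prime hp] at h3
    exact h3
  refine ⟨_, h2, ?_⟩
  rw [h1]
  congr 1
  rw [hf, normalizerMonoidHom_ker]
  have h4 : centralizer (X : Set T) = centralizer {x} := by
    rw [hX, zpowers_eq_closure, centralizer_closure]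
  rw [h4]
  have h5 : centralizer {x} ≤ normalizer (X : Set T) := by
    rw [← h4]
    exact centralizer_le_normalizer _
  exact Nat.card_congr (subgroupOfEquivOfLe h5).toEquiv

/-- Sylow's theorem inside a subgroup `N` of order `p * m`, `p ∤ m`: two elements of order `p` of `N`
generate subgroups conjugate in `N`. -/
theorem sylow_conj {T : Type*} [Group T] [Finite T] {p m : ℕ} (hp : p.Prime) (N : Subgroup T)
    (hN : Nat.card N = p * m) (hm : ¬ p ∣ m) {u v : T} (hu : u ∈ N) (hv : v ∈ N)
    (hu' : orderOf u = p) (hv' : orderOf v = p) : ∃ h ∈ N, h * v * h⁻¹ ∈ zpowers u := by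
  have := Fact.mk hp
  have hfac : (Nat.card N).factorization p = 1 := by
    have hm0 : m ≠ 0 := fun h => hm (h ▸ dvd_zero p)
    rw [hN, Nat.factorization_mul hp.ne_zero hm0, Finsupp.add_apply, hp.factorization_self,
      Nat.factorization_eq_zero_of_not_dvd hm]
  have hc : ∀ w : N, orderOf w = p → Nat.card (zpowers w) = p ^ (Nat.card N).factorization p := by
    intro w hw
    rw [hfac, pow_one, Nat.card_zpowers, hw]
  set u' : N := ⟨u, hu⟩
  set v' : N := ⟨v, hv⟩
  have hu1 : orderOf u' = p := by rw [← hu', ← orderOf_coe u']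
  have hv1 : orderOf v' = p := by rw [← hv', ← orderOf_coe v']
  set P : Sylow p N := Sylow.ofCard (zpowers u') (hc u' hu1)
  set Q : Sylow p N := Sylow.ofCard (zpowers v') (hc v' hv1)
  obtain ⟨g, hg⟩ := MulAction.exists_smul_eq N Q P
  have h1 : g * v' * g⁻¹ ∈ (P : Subgroup N) := by
    rw [← hg, Sylow.coe_subgroup_smul]
    rw [show g * v' * g⁻¹ = MulAut.conj g • v' from rfl]
    exact smul_mem_pointwise_smul _ _ _ (mem_zpowers v')
  obtain ⟨k, hk⟩ := mem_zpowers_iff.mp h1
  refine ⟨g, g.2, mem_zpowers_iff.mpr ⟨k, ?_⟩⟩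
  have h2 := congrArg (fun z : N => (z : T)) hk
  simpa using h2

end Pool.Agent.Lib.MP_3d4e6a_al
end

section

/-!
# MP_3d4e6a_al, part C: T wr C_k is monolithic with socle T^k and its soluble graph has diameter <= 3
-/

namespace Pool.Agent.Lib.MP_3d4e6a_al

open RegularWreathProduct

/-- The pair `x`, `z` generates a soluble group when the conjugates of `z` by powers of `x` commute. -/
theorem isSolvable_closure_pair {G : Type*} [Group G] (x z : G)
    (h : ∀ m n : ℤ, Commute (x ^ m * z * (x ^ m)⁻¹) (x ^ n * z * (x ^ n)⁻¹)) :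
    Group.IsSolvable (Subgroup.closure {x, z}) := by
  set S : Set G := Set.range fun m : ℤ => x ^ m * z * (x ^ m)⁻¹ with hS
  set A : Subgroup G := Subgroup.closure S with hA
  have hcomm : ∀ a ∈ S, ∀ b ∈ S, a * b = b * a := by
    rintro a ⟨m, rfl⟩ b ⟨n, rfl⟩
    exact h m n
  have hAc : ∀ a ∈ A, ∀ b ∈ A, a * b = b * a := by
    intro a ha b hb
    have := Subgroup.isMulCommutative_closure (k := S) hcomm
    have := mul_comm' (⟨a, ha⟩ : Subgroup.closure S) ⟨b, hb⟩
    exact congrArg Subtype.val this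
  have hAs : Group.IsSolvable A := by
    apply Group.isSolvable_of_comm
    intro a b
    exact Subtype.ext (hAc a a.2 b b.2)
  -- conjugation by powers of `x`
  have hconj : ∀ (m : ℤ), ∀ a ∈ A, x ^ m * a * (x ^ m)⁻¹ ∈ A := by
    intro m a ha
    have : A ≤ A.comap (MulAut.conj (x ^ m)).toMonoidHom := by
      rw [hA, Subgroup.closure_le]
      rintro _ ⟨n, rfl⟩
      simp only [Subgroup.coe_comap, Set.mem_preimage, MulEquiv.coe_toMonoidHom, MulAut.conj_apply,
        SetLike.mem_coe]
      apply Subgroup.subset_closure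
      refine ⟨m + n, ?_⟩
      simp only [zpow_add]
      group
    exact this ha
  have hxN : x ∈ Subgroup.normalizer (A : Set G) := by
    rw [Subgroup.mem_normalizer_iff]
    intro a
    constructor
    · intro ha
      simpa using hconj 1 a ha
    · intro ha
      have := hconj (-1) _ ha
      simpa [mul_assoc] using this
  have hzA : z ∈ A := Subgroup.subset_closure ⟨0, by simp⟩
  have hAN : A ≤ Subgroup.normalizer (A : Set G) := Subgroup.le_normalizer
  -- the group `P` of all elements of the normaliser which are a power of `x` modulo `A`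
  let N := Subgroup.normalizer (A : Set G)
  let A' : Subgroup N := A.subgroupOf N
  have hA'n : A'.Normal := Subgroup.normal_in_normalizer
  let q : N →* N ⧸ A' := QuotientGroup.mk' A'
  let xN : N := ⟨x, hxN⟩
  let P : Subgroup N := (Subgroup.zpowers (q xN)).comap q
  have hP : Group.IsSolvable P := by
    have hle : A' ≤ P := by
      intro a ha
      rw [Subgroup.mem_comap]
      have : q a = 1 := (QuotientGroup.eq_one_iff a).2 ha
      rw [this]
      exact one_mem _
    have hA's : Group.IsSolvable A' := by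
      apply Group.isSolvable_of_comm
      intro a b
      apply Subtype.ext
      apply Subtype.ext
      exact hAc _ (Subgroup.mem_subgroupOf.1 a.2) _ (Subgroup.mem_subgroupOf.1 b.2)
    let g : P →* Subgroup.zpowers (q xN) :=
      { toFun := fun p => ⟨q p.1, p.2⟩
        map_one' := by ext; simp
        map_mul' := by intro a b; ext; simp }
    have hz : Group.IsSolvable (Subgroup.zpowers (q xN)) := by
      apply Group.isSolvable_of_comm
      rintro ⟨a, m, rfl⟩ ⟨b, n, rfl⟩
      apply Subtype.ext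
      exact ((Commute.refl (q xN)).zpow_zpow m n).eq
    refine Group.isSolvable_of_ker_le_range (Subgroup.inclusion hle) g ?_
    intro p hp
    have h1 : q p.1 = 1 := congrArg Subtype.val hp
    have h2 : p.1 ∈ A' := (QuotientGroup.eq_one_iff p.1).1 h1
    exact ⟨⟨p.1, h2⟩, rfl⟩
  have hle : Subgroup.closure {x, z} ≤ P.map N.subtype := by
    rw [Subgroup.closure_le]
    intro y hy
    rcases hy with rfl | hy
    · exact ⟨xN, Subgroup.mem_zpowers _, rfl⟩
    · rw [Set.mem_singleton_iff] at hy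
      subst hy
      have h1 : q ⟨y, hAN hzA⟩ = 1 := (QuotientGroup.eq_one_iff _).2 hzA
      have h2 : (⟨y, hAN hzA⟩ : N) ∈ P := by
        rw [Subgroup.mem_comap, h1]
        exact one_mem _
      exact ⟨⟨y, hAN hzA⟩, h2, rfl⟩
  have hPm : Group.IsSolvable (P.map N.subtype) := by
    have hs : Function.Surjective (N.subtype.subgroupMap P) := MonoidHom.subgroupMap_surjective _ _
    exact Group.isSolvable_of_surjective hs
  exact Group.isSolvable_of_isSolvable_injective (Subgroup.inclusion_injective hle)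

/-- Two commuting elements generate a soluble group. -/
theorem isSolvable_closure_pair_of_commute {G : Type*} [Group G] (x z : G) (h : Commute x z) :
    Group.IsSolvable (Subgroup.closure {x, z}) := by
  apply isSolvable_closure_pair
  intro m n
  have : ∀ k : ℤ, x ^ k * z * (x ^ k)⁻¹ = z := by
    intro k
    rw [(h.zpow_left k).eq, mul_assoc, mul_inv_cancel, mul_one]
  rw [this, this]

section

variable {T Q : Type} [Group T] [Group Q]

/-- The embedding of the base group. -/
def base : (Q → T) →* T ≀ᵣ Q where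
  toFun f := ⟨f, 1⟩
  map_one' := rfl
  map_mul' f g := by ext <;> simp

theorem base_left (f : Q → T) : (base f : T ≀ᵣ Q).left = f := rfl
theorem base_right (f : Q → T) : (base f : T ≀ᵣ Q).right = 1 := rfl

/-- The element `t` in coordinate `i`. -/
def sg [DecidableEq Q] (i : Q) : T →* T ≀ᵣ Q := base.comp (MonoidHom.mulSingle (fun _ : Q => T) i)

theorem sg_apply [DecidableEq Q] (i : Q) (t : T) : sg i t = base (Pi.mulSingle i t) := rfl

theorem conj_base (x : T ≀ᵣ Q) (f : Q → T) :
    x * base f * x⁻¹ = base (fun j => x.left j * f (x.right⁻¹ * j) * (x.left j)⁻¹) := by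
  ext j
  · simp [base_left, base_right]
  · simp [base_right]

theorem conj_sg [DecidableEq Q] (x : T ≀ᵣ Q) (i : Q) (t : T) :
    x * sg i t * x⁻¹ = sg (x.right * i) (x.left (x.right * i) * t * (x.left (x.right * i))⁻¹) := by
  rw [sg_apply, conj_base, sg_apply]
  congr 1
  funext j
  by_cases hj : j = x.right * i
  · subst hj
    simp
  · have : x.right⁻¹ * j ≠ i := by
      intro h
      apply hj
      rw [← h]
      simp
    rw [Pi.mulSingle_eq_of_ne hj, Pi.mulSingle_eq_of_ne this]
    simp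

theorem commute_sg [DecidableEq Q] {i j : Q} (hij : i ≠ j) (s t : T) :
    Commute (sg i s : T ≀ᵣ Q) (sg j t) := by
  unfold Commute SemiconjBy
  rw [sg_apply, sg_apply, ← map_mul, ← map_mul]
  congr 1
  exact (Pi.mulSingle_commute (f := fun _ : Q => T) hij s t).eq

theorem zpow_right (x : T ≀ᵣ Q) (m : ℤ) : (x ^ m).right = x.right ^ m :=
  map_zpow (rightHom : T ≀ᵣ Q →* Q) x m

theorem pow_right (x : T ≀ᵣ Q) (m : ℕ) : (x ^ m).right = x.right ^ m :=
  map_pow (rightHom : T ≀ᵣ Q →* Q) x m

theorem eq_base (x : T ≀ᵣ Q) (h : x.right = 1) : x = base x.left := by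
  ext
  · rfl
  · exact h

/-- Every element has a partner supported in coordinate `i` generating with it a soluble group. -/
theorem exists_partner [DecidableEq Q] [Nontrivial T] (x : T ≀ᵣ Q) (i : Q) :
    ∃ t : T, t ≠ 1 ∧ Group.IsSolvable (Subgroup.closure {x, (sg i t : T ≀ᵣ Q)}) := by
  set l := orderOf x.right with hl
  have hr : (x ^ l).right = 1 := by rw [pow_right, hl, pow_orderOf_eq_one]
  obtain ⟨t, ht1, htc⟩ : ∃ t : T, t ≠ 1 ∧ Commute ((x ^ l).left i) t := by
    by_cases hc : (x ^ l).left i = 1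
    · obtain ⟨t, ht⟩ := exists_ne (1 : T)
      exact ⟨t, ht, by rw [hc]; exact Commute.one_left t⟩
    · exact ⟨_, hc, Commute.refl _⟩
  refine ⟨t, ht1, isSolvable_closure_pair x _ ?_⟩
  have hcl : Commute (x ^ l) (sg i t : T ≀ᵣ Q) := by
    have h1 := conj_sg (x ^ l) i t
    rw [hr, one_mul, htc.eq, mul_inv_cancel_right, mul_inv_eq_iff_eq_mul] at h1
    exact h1
  intro m n
  by_cases hmn : x.right ^ m = x.right ^ n
  · have h1 : x.right ^ (m - n) = 1 := by rw [zpow_sub, hmn, mul_inv_cancel]
    obtain ⟨q, hq⟩ : (l : ℤ) ∣ m - n := orderOf_dvd_iff_zpow_eq_one.2 h1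
    have h2 : x ^ m = x ^ n * (x ^ l) ^ q := by
      rw [← zpow_natCast, ← zpow_mul, ← hq, ← zpow_add]
      congr 1
      ring
    have h3 : x ^ m * sg i t * (x ^ m)⁻¹ = x ^ n * sg i t * (x ^ n)⁻¹ := by
      rw [h2, mul_assoc (x ^ n), ((hcl.zpow_left q)).eq]
      group
    rw [h3]
    exact Commute.refl _
  · rw [conj_sg, conj_sg, zpow_right, zpow_right]
    apply commute_sg
    intro h
    exact hmn (mul_right_cancel h)

theorem sg_mem_of_ne [DecidableEq Q] [IsSimpleGroup T] (hT : ¬ ∀ a b : T, a * b = b * a)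
    (K : Subgroup (T ≀ᵣ Q)) (hK : K.Normal) (b : T ≀ᵣ Q) (hb : b ∈ K) (hb1 : b.right = 1) (i : Q)
    (hi : b.left i ≠ 1) (t : T) : (sg i t : T ≀ᵣ Q) ∈ K := by
  -- the set of all `t` with `sg i t ∈ K` is a normal subgroup of `T`
  set L : Subgroup T := K.comap (sg i) with hL
  have hLn : L.Normal := hK.comap _
  have hne : L ≠ ⊥ := by
    -- the centre of `T` is trivial
    have hc : ∃ s : T, b.left i * s ≠ s * b.left i := by
      by_contra hcon
      push Not at hcon
      have hmem : b.left i ∈ Subgroup.center T := by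
        rw [Subgroup.mem_center_iff]
        intro g
        exact (hcon g).symm
      rcases (Subgroup.center T).normal_of_characteristic.eq_bot_or_eq_top with h | h
      · rw [h, Subgroup.mem_bot] at hmem
        exact hi hmem
      · apply hT
        intro a c
        have : c ∈ Subgroup.center T := by rw [h]; exact Subgroup.mem_top c
        exact Subgroup.mem_center_iff.1 this a
    obtain ⟨s, hs⟩ := hc
    intro hbot
    have h1 : b * sg i s * b⁻¹ * (sg i s)⁻¹ ∈ K := by
      have h2 : sg i s * b⁻¹ * (sg i s)⁻¹ ∈ K := hK.conj_mem _ (inv_mem hb) _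
      have h3 := mul_mem hb h2
      have h4 : b * (sg i s * b⁻¹ * (sg i s)⁻¹) = b * sg i s * b⁻¹ * (sg i s)⁻¹ := by group
      rwa [h4] at h3
    rw [conj_sg, hb1, one_mul, ← map_inv, ← map_mul] at h1
    have h2 : b.left i * s * (b.left i)⁻¹ * s⁻¹ ∈ L := h1
    rw [hbot, Subgroup.mem_bot] at h2
    apply hs
    rw [mul_inv_eq_one, mul_inv_eq_iff_eq_mul] at h2
    exact h2
  rcases hLn.eq_bot_or_eq_top with h | h
  · exact absurd h hne
  · have : t ∈ L := by rw [h]; exact Subgroup.mem_top t
    exact this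

theorem base_mem [DecidableEq Q] [Finite Q] [IsSimpleGroup T] (hT : ¬ ∀ a b : T, a * b = b * a)
    (K : Subgroup (T ≀ᵣ Q)) (hK : K.Normal) (hne : K ≠ ⊥) (f : Q → T) :
    (base f : T ≀ᵣ Q) ∈ K := by
  obtain ⟨g, hg, hg1⟩ : ∃ g : T ≀ᵣ Q, g ∈ K ∧ g ≠ 1 := by
    obtain ⟨a, ha⟩ := Subgroup.ne_bot_iff_exists_ne_one.1 hne
    exact ⟨a.1, a.2, fun h => ha (Subtype.ext h)⟩
  obtain ⟨b, hb, hb1, i, hi⟩ : ∃ b : T ≀ᵣ Q, b ∈ K ∧ b.right = 1 ∧ ∃ i, b.left i ≠ 1 := by
    by_cases hr : g.right = 1
    · refine ⟨g, hg, hr, ?_⟩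
      by_contra hcon
      push Not at hcon
      apply hg1
      ext j
      · exact hcon j
      · exact hr
    · obtain ⟨t, ht⟩ := exists_ne (1 : T)
      refine ⟨g * sg 1 t * g⁻¹ * (sg 1 t)⁻¹, ?_, ?_, 1, ?_⟩
      · have h2 : sg 1 t * g⁻¹ * (sg 1 t)⁻¹ ∈ K := hK.conj_mem _ (inv_mem hg) _
        have h3 := mul_mem hg h2
        have h4 : g * (sg 1 t * g⁻¹ * (sg 1 t)⁻¹) = g * sg 1 t * g⁻¹ * (sg 1 t)⁻¹ := by group
        rwa [h4] at h3
      · rw [conj_sg, ← map_inv, sg_apply, sg_apply, ← map_mul]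
        rfl
      · rw [conj_sg, ← map_inv, sg_apply, sg_apply, ← map_mul, base_left, Pi.mul_apply,
          Pi.mulSingle_eq_same, Pi.mulSingle_eq_of_ne, one_mul]
        · exact inv_ne_one.2 ht
        · rw [mul_one]
          exact fun h => hr h.symm
  have hall : ∀ (j : Q) (t : T), (sg j t : T ≀ᵣ Q) ∈ K := by
    intro j t
    have h1 := sg_mem_of_ne hT K hK b hb hb1 i hi t
    have h2 := hK.conj_mem _ h1 (inl (j * i⁻¹))
    rw [conj_sg] at h2
    simpa using h2
  have := Subgroup.pi_mem_of_mulSingle_mem (H := K.comap (base : (Q → T) →* T ≀ᵣ Q)) f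
    (fun j => hall j (f j))
  exact this

theorem monolith [Finite Q] [IsSimpleGroup T] (hT : ¬ ∀ a b : T, a * b = b * a) :
    IsMonolith (rightHom : T ≀ᵣ Q →* Q).ker := by
  classical
  refine ⟨MonoidHom.normal_ker _, ?_, ?_⟩
  · obtain ⟨t, ht⟩ := exists_ne (1 : T)
    intro h
    have h1 : (sg 1 t : T ≀ᵣ Q) ∈ (rightHom : T ≀ᵣ Q →* Q).ker := rfl
    rw [h, Subgroup.mem_bot] at h1
    have h2 : (sg 1 t : T ≀ᵣ Q).left 1 = 1 := by rw [h1]; rfl
    rw [sg_apply, base_left, Pi.mulSingle_eq_same] at h2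
    exact ht h2
  · intro K hK hne g hg
    rw [eq_base g hg]
    exact base_mem hT K hK hne _

theorem solRadical_eq_bot [Finite Q] [IsSimpleGroup T] (hT : ¬ ∀ a b : T, a * b = b * a) :
    solRadical (T ≀ᵣ Q) = ⊥ := by
  classical
  unfold solRadical
  rw [sSup_eq_bot]
  rintro K ⟨hK, hs⟩
  by_contra hne
  apply hT
  rw [IsSimpleGroup.comm_iff_isSolvable]
  let φ : T →* K :=
    { toFun := fun t => ⟨sg 1 t, base_mem hT K hK hne _⟩
      map_one' := by ext <;> simp
      map_mul' := by intro a b; ext <;> simp }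
  apply Group.isSolvable_of_isSolvable_injective (f := φ)
  intro a b hab
  have h1 : (sg 1 a : T ≀ᵣ Q) = sg 1 b := congrArg Subtype.val hab
  have h2 := congrArg (fun y : T ≀ᵣ Q => y.left 1) h1
  simpa [sg_apply, base_left] using h2

theorem ediam_le [Finite Q] [Nontrivial Q] [IsSimpleGroup T]
    (hT : ¬ ∀ a b : T, a * b = b * a) : (solGraph (T ≀ᵣ Q)).ediam ≤ 3 := by
  classical
  apply SimpleGraph.ediam_le_of_edist_le
  intro u v
  obtain ⟨i, hi⟩ := exists_ne (1 : Q)
  obtain ⟨s, hs1, hs⟩ := exists_partner (u : T ≀ᵣ Q) 1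
  obtain ⟨t, ht1, ht⟩ := exists_partner (v : T ≀ᵣ Q) i
  have hrad : solRadical (T ≀ᵣ Q) = ⊥ := solRadical_eq_bot hT
  have hv : ∀ (j : Q) (r : T), r ≠ 1 → (sg j r : T ≀ᵣ Q) ∉ solRadical (T ≀ᵣ Q) := by
    intro j r hr hmem
    rw [hrad, Subgroup.mem_bot] at hmem
    have h2 : (sg j r : T ≀ᵣ Q).left j = 1 := by rw [hmem]; rfl
    rw [sg_apply, base_left, Pi.mulSingle_eq_same] at h2
    exact hr h2
  have hone : ∀ a b : {x : T ≀ᵣ Q // x ∉ solRadical (T ≀ᵣ Q)},
      Group.IsSolvable (Subgroup.closure {(a : T ≀ᵣ Q), (b : T ≀ᵣ Q)}) →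
      (solGraph (T ≀ᵣ Q)).edist a b ≤ 1 := by
    intro a b hab
    rw [SimpleGraph.edist_le_one_iff_adj_or_eq]
    by_cases h : a = b
    · exact Or.inr h
    · exact Or.inl ⟨h, hab⟩
  let z1 : {x : T ≀ᵣ Q // x ∉ solRadical (T ≀ᵣ Q)} := ⟨sg 1 s, hv 1 s hs1⟩
  let z2 : {x : T ≀ᵣ Q // x ∉ solRadical (T ≀ᵣ Q)} := ⟨sg i t, hv i t ht1⟩
  have h1 : (solGraph (T ≀ᵣ Q)).edist u z1 ≤ 1 := hone _ _ hs
  have h2 : (solGraph (T ≀ᵣ Q)).edist z1 z2 ≤ 1 :=
    hone _ _ (isSolvable_closure_pair_of_commute _ _ (commute_sg hi.symm s t))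
  have h3 : (solGraph (T ≀ᵣ Q)).edist z2 v ≤ 1 := by
    rw [SimpleGraph.edist_comm]
    exact hone _ _ ht
  calc (solGraph (T ≀ᵣ Q)).edist u v
      ≤ (solGraph (T ≀ᵣ Q)).edist u z2 + (solGraph (T ≀ᵣ Q)).edist z2 v :=
        SimpleGraph.edist_triangle
    _ ≤ ((solGraph (T ≀ᵣ Q)).edist u z1 + (solGraph (T ≀ᵣ Q)).edist z1 z2) +
        (solGraph (T ≀ᵣ Q)).edist z2 v := by
        gcongr
        exact SimpleGraph.edist_triangle
    _ ≤ (1 + 1) + 1 := by gcongr
    _ = 3 := by norm_num

/-- The kernel of the projection is the direct power. -/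
def kerEquiv : (rightHom : T ≀ᵣ Q →* Q).ker ≃* (Q → T) where
  toFun g := g.1.left
  invFun f := ⟨base f, rfl⟩
  left_inv g := Subtype.ext (eq_base g.1 g.2).symm
  right_inv f := rfl
  map_mul' a b := by
    have ha : a.1.right = 1 := a.2
    funext j
    simp [ha]

end


/-- For every finite non-abelian simple group `T` and every `k ≥ 2` there is a finite group `G` (the
wreath product of `T` with a cyclic group of order `k`) whose unique minimal normal subgroup is
isomorphic to `T^k` and whose soluble graph has diameter at most `3`.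

Proof. `G = RegularWreathProduct T (Multiplicative (ZMod k))`, base group `B = ker rightHom`.
(1) Let `K` be a nontrivial normal subgroup. Then `K` contains an element of `B` that is nontrivial in
coordinate `i`: if `g = (f, π) ∈ K` with `π ≠ 1`, take the commutator of `g` with an element of `B`
supported in one coordinate; if `π = 1` take `g` itself. Commutator with `(t at i)` gives a nontrivial
element of `K` supported at `i` (centre of `T` trivial), simplicity of `T` gives `T_i ≤ K`,
conjugation gives `B ≤ K`. Hence `B` is the monolith, and `solRadical G = ⊥`.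
(2) For `x ∈ G` and every coordinate `i` there is `z ≠ 1` supported at `i` with `⟨x, z⟩` soluble: let
`l` be the order of the top part of `x`, so `x ^ l ∈ B`; let `g` be the `i`-th coordinate of `x ^ l`,
and `z_i = g` if `g ≠ 1`, any nontrivial element otherwise. The conjugates of `z` by powers of `x`
commute pairwise, they generate an abelian subgroup normalised by `x`.
(3) `x ~ z_1 ~ z_2 ~ y` with `z_1` supported at one coordinate and `z_2` at another. -/
theorem wreath (T : Type) [Group T] [Finite T] [IsSimpleGroup T] (hT : ¬ ∀ a b : T, a * b = b * a)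
    (k : ℕ) (hk : 2 ≤ k) :
    ∃ (G : Type) (_ : Group G) (_ : Finite G) (N : Subgroup G),
      Nonempty (N ≃* (Fin k → T)) ∧ IsMonolith N ∧ (solGraph G).ediam ≤ 3 := by
  have : NeZero k := ⟨by omega⟩
  have : Fact (1 < k) := ⟨by omega⟩
  let Q := Multiplicative (ZMod k)
  have hQ : Nontrivial Q := inferInstanceAs (Nontrivial (Multiplicative (ZMod k)))
  have hQf : Finite Q := inferInstanceAs (Finite (Multiplicative (ZMod k)))
  refine ⟨T ≀ᵣ Q, inferInstance, inferInstance, (rightHom : T ≀ᵣ Q →* Q).ker, ?_, monolith hT,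
    ediam_le hT⟩
  have hcard : Nat.card Q = k := Nat.card_zmod k
  let e : Q ≃ Fin k := Finite.equivFinOfCardEq hcard
  exact ⟨kerEquiv.trans (MulEquiv.arrowCongr e (MulEquiv.refl T))⟩

end Pool.Agent.Lib.MP_3d4e6a_al
end

section

/-!
# MP_3d4e6a_al: soluble overgroups of elements of order 59 and 29
-/

namespace Pool.Agent.Lib.MP_3d4e6a_al

open Subgroup

variable {T : Type*} [Group T] [Finite T]

theorem exists_card_pow {R : Subgroup T} {r : ℕ} (hr : r.Prime) (hR : R ≠ ⊥)
    (he : ∀ g ∈ R, g ^ r = 1) : ∃ m, 1 ≤ m ∧ Nat.card R = r ^ m := by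
  have := Fact.mk hr
  have hp : IsPGroup r R := fun g => ⟨1, Subtype.ext (by simpa using he g g.2)⟩
  obtain ⟨m, hm⟩ := IsPGroup.iff_card.mp hp
  refine ⟨m, ?_, hm⟩
  rcases Nat.eq_zero_or_pos m with h0 | h0
  · rw [h0, pow_zero] at hm
    exact absurd (card_eq_one.mp hm) hR
  · exact h0

/-- `elemNormal` for a soluble subgroup `H` of `T`, modulo a subgroup `K` normal in `H`. -/
theorem elemSub (H K : Subgroup T) (hKH : K ≤ H) (hKn : H ≤ normalizer (K : Set T))
    (hne : K ≠ H) (hs : Group.IsSolvable H) :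
    ∃ (r m : ℕ) (S : Subgroup T), r.Prime ∧ 1 ≤ m ∧ K ≤ S ∧ S ≤ H ∧ H ≤ normalizer (S : Set T) ∧
      Nat.card S = Nat.card K * r ^ m ∧ (∀ g ∈ S, g ^ r ∈ K) := by
  set K' : Subgroup H := K.subgroupOf H with hK'
  have hn : K'.Normal := by
    refine ⟨fun g hg h => ?_⟩
    rw [hK', mem_subgroupOf] at hg ⊢
    exact (mem_normalizer_iff.mp (hKn h.2) g).mp hg
  have hlt : K' ≠ ⊤ := by
    intro h
    rw [hK', subgroupOf_eq_top] at h
    exact hne (le_antisymm hKH h)
  have : Nontrivial (H ⧸ K') := QuotientGroup.nontrivial_iff.mpr hlt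
  obtain ⟨r, R, hr, hRn, hR, hRe, -⟩ := elemNormal (H ⧸ K')
  obtain ⟨m, hm1, hm⟩ := exists_card_pow hr hR hRe
  set S' : Subgroup H := R.comap (QuotientGroup.mk' K') with hS'
  have hcard : Nat.card S' = Nat.card K' * Nat.card R := by
    have h1 : S'.index = R.index := index_comap_of_surjective R (QuotientGroup.mk'_surjective K')
    have h2 := S'.card_mul_index
    have h3 := R.card_mul_index
    have h4 : Nat.card (H ⧸ K') = K'.index := rfl
    have h5 := K'.card_mul_index
    rw [h1] at h2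
    have h6 : 0 < R.index := Nat.pos_of_ne_zero index_ne_zero_of_finite
    apply Nat.eq_of_mul_eq_mul_right h6
    rw [h2, mul_assoc, h3, h4, h5]
  refine ⟨r, m, S'.map H.subtype, hr, hm1, ?_, ?_, ?_, ?_, ?_⟩
  · intro g hg
    refine ⟨⟨g, hKH hg⟩, ?_, rfl⟩
    change _ ∈ R.comap (QuotientGroup.mk' K')
    rw [mem_comap]
    have : QuotientGroup.mk' K' ⟨g, hKH hg⟩ = 1 := by
      rw [QuotientGroup.mk'_apply, QuotientGroup.eq_one_iff]
      exact mem_subgroupOf.mpr hg
    rw [this]
    exact R.one_mem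
  · rintro _ ⟨g, -, rfl⟩
    exact g.2
  · intro h hh
    have hSn : S'.Normal := hRn.comap _
    apply mem_normalizer_fintype
    rintro _ ⟨g, hg, rfl⟩
    exact ⟨⟨h, hh⟩ * g * ⟨h, hh⟩⁻¹, hSn.conj_mem g hg ⟨h, hh⟩, rfl⟩
  · rw [card_map_of_injective H.subtype_injective, hcard, hm]
    congr 1
    exact Nat.card_congr (subgroupOfEquivOfLe hKH).toEquiv
  · rintro _ ⟨g, hg, rfl⟩
    have h1 := hRe _ (mem_comap.mp hg)
    rw [← map_pow, QuotientGroup.mk'_apply, QuotientGroup.eq_one_iff] at h1
    have h2 := mem_subgroupOf.mp h1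
    simpa using h2

/-- Version with `K = ⊥`. -/
theorem elemSub0 (H : Subgroup T) (hne : H ≠ ⊥) (hs : Group.IsSolvable H) :
    ∃ (r m : ℕ) (S : Subgroup T), r.Prime ∧ 1 ≤ m ∧ S ≤ H ∧ H ≤ normalizer (S : Set T) ∧
      Nat.card S = r ^ m ∧ (∀ g ∈ S, g ^ r = 1) := by
  obtain ⟨r, m, S, hr, hm, -, h1, h2, h3, h4⟩ := elemSub H ⊥ bot_le
    (fun h _ => by
      apply mem_normalizer_fintype
      rintro g hg
      have : g = 1 := hg
      subst this
      simp) (Ne.symm hne) hs
  refine ⟨r, m, S, hr, hm, h1, h2, ?_, fun g hg => ?_⟩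
  · rw [h3]; simp
  · exact h4 g hg

/-- The soluble overgroups of an element of order `59` normalise the subgroup it generates. -/
theorem over59 (h1 : Nat.card T = mOrd)
    (h2 : ∀ x : T, orderOf x = 59 → Nat.card (centralizer {x} : Subgroup T) = 59)
    {x : T} (hx : orderOf x = 59) {H : Subgroup T} (hs : Group.IsSolvable H) (hxH : x ∈ H) :
    H ≤ normalizer (zpowers x : Set T) := by
  have hp : Nat.Prime 59 := by norm_num
  have hx1 : x ≠ 1 := by rintro rfl; simp at hx
  have hH : H ≠ ⊥ := by rintro rfl; exact hx1 (mem_bot.mp hxH)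
  obtain ⟨r, m, R, hr, hm, hRH, hRn, hRc, hRe⟩ := elemSub0 H hH hs
  have hC : zpowers x = centralizer {x} :=
    zpowers_eq_of_card (mem_centralizer_singleton_iff.mpr rfl) (by rw [h2 x hx, hx])
  have hfix := cardFix hp x (by rw [← hx]; exact pow_orderOf_eq_one x) R (hRn hxH)
  have hdvd : Nat.card (R ⊓ centralizer {x} : Subgroup T) ∣ 59 := by
    rw [← h2 x hx]
    exact card_dvd_of_le inf_le_right
  have hRT : r ^ m ∣ mOrd := by
    rw [← h1, ← hRc]
    exact card_subgroup_dvd_card R
  rcases (Nat.dvd_prime hp).mp hdvd with h | h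
  · rw [h, hRc] at hfix
    exact (ar59 hr hRT hm hfix).elim
  · have h5 : R ⊓ centralizer {x} = centralizer {x} := by
      apply eq_of_le_of_card_ge inf_le_right
      rw [h, h2 x hx]
    have h6 : zpowers x ≤ R := by
      rw [hC, ← h5]
      exact inf_le_left
    have h7 : 59 ∣ r ^ m := by
      rw [← hRc, ← hx, ← Nat.card_zpowers]
      exact card_dvd_of_le h6
    have h8 : 59 = r := (Nat.prime_dvd_prime_iff_eq hp hr).mp (hp.dvd_of_dvd_pow h7)
    subst h8
    have h9 : m ≤ 1 := exp_le hRT (by norm_num [mOrd])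
    have h10 : m = 1 := le_antisymm h9 hm
    have h11 : zpowers x = R := by
      apply eq_of_le_of_card_ge h6
      rw [hRc, h10, Nat.card_zpowers, hx]
      norm_num
    rw [h11]
    exact hRn

/-- The elements of order `29` commuting with `u` lie in the subgroup generated by `u`. -/
theorem mem_of_comm29 (h3 : ∀ x : T, orderOf x = 29 → Nat.card (centralizer {x} : Subgroup T) = 87)
    {u v : T} (hu : orderOf u = 29) (hv : orderOf v = 29) (hc : v ∈ centralizer {u}) :
    v ∈ zpowers u := by
  have hp : Nat.Prime 29 := by norm_num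
  obtain ⟨h, hh, hk⟩ := sylow_conj (m := 3) hp (centralizer {u}) (by rw [h3 u hu]) (by norm_num)
    (mem_centralizer_singleton_iff.mpr rfl) hc hu hv
  obtain ⟨k, hk⟩ := mem_zpowers_iff.mp hk
  have hcomm : Commute h u := by
    have := mem_centralizer_singleton_iff.mp hh
    exact this
  have h5 : Commute h (u ^ k) := Commute.zpow_right hcomm k
  have h6 : v = u ^ k := by
    have h7 : v = h⁻¹ * (h * v * h⁻¹) * h := by group
    rw [h7, ← hk, mul_assoc, ← h5.eq, inv_mul_cancel_left]
  rw [h6]
  exact zpow_mem (mem_zpowers u) k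

theorem zpowers_eq_of_mem {u v : T} (h : orderOf u = orderOf v) (hv : v ∈ zpowers u) :
    zpowers u = zpowers v := by
  symm
  apply eq_of_le_of_card_ge (zpowers_le.mpr hv)
  rw [Nat.card_zpowers, Nat.card_zpowers, h]

/-- The soluble overgroups of an element `u` of order `29` normalise `⟨u⟩` or a subgroup of order
`59`. -/
theorem over29 (h1 : Nat.card T = mOrd)
    (h2 : ∀ x : T, orderOf x = 59 → Nat.card (centralizer {x} : Subgroup T) = 59)
    (h3 : ∀ x : T, orderOf x = 29 → Nat.card (centralizer {x} : Subgroup T) = 87)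
    (h4 : ¬ ∃ E : Subgroup T, Nat.card E = 2 ^ 28 ∧ ∀ g ∈ E, g ^ 2 = 1)
    {u : T} (hu : orderOf u = 29) {H : Subgroup T} (hs : Group.IsSolvable H) (huH : u ∈ H) :
    H ≤ normalizer (zpowers u : Set T) ∨
      ∃ x : T, orderOf x = 59 ∧ H ≤ normalizer (zpowers x : Set T) := by
  have hp : Nat.Prime 29 := by norm_num
  have hp3 : Nat.Prime 3 := by norm_num
  have hp59 : Nat.Prime 59 := by norm_num
  have hu1 : u ≠ 1 := by rintro rfl; simp at hu
  have hu29 : u ^ 29 = 1 := by rw [← hu]; exact pow_orderOf_eq_one u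
  have hH : H ≠ ⊥ := by rintro rfl; exact hu1 (mem_bot.mp huH)
  obtain ⟨r, m, R, hr, hm, hRH, hRn, hRc, hRe⟩ := elemSub0 H hH hs
  have hfix := cardFix hp u hu29 R (hRn huH)
  have hC := h3 u hu
  have hdvd : Nat.card (R ⊓ centralizer {u} : Subgroup T) ∣ 87 := by
    rw [← hC]
    exact card_dvd_of_le inf_le_right
  have hdvd' : Nat.card (R ⊓ centralizer {u} : Subgroup T) ∣ r ^ m := by
    rw [← hRc]
    exact card_dvd_of_le inf_le_left
  have hRT : r ^ m ∣ mOrd := by
    rw [← h1, ← hRc]
    exact card_subgroup_dvd_card R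
  have h87 : ∀ d : ℕ, d ∣ 87 → d = 1 ∨ d = 3 ∨ d = 29 ∨ d = 87 := by
    intro d hd
    have : d ∈ Nat.divisors 87 := Nat.mem_divisors.mpr ⟨hd, by norm_num⟩
    have h5 : Nat.divisors 87 = {1, 3, 29, 87} := by decide
    rw [h5] at this
    simpa using this
  rcases h87 _ hdvd with h | h | h | h
  · -- no fixed point
    rw [h, hRc] at hfix
    rcases ar29 hr hRT hm hfix with ⟨rfl, rfl⟩ | ⟨rfl, rfl⟩
    · exact (h4 ⟨R, hRc, hRe⟩).elim
    · right
      have : Fact (Nat.Prime 59) := ⟨hp59⟩
      obtain ⟨x, hx⟩ := exists_prime_orderOf_dvd_card' (G := R) 59 (by rw [hRc, pow_one])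
      refine ⟨x, by rw [orderOf_coe]; exact hx, ?_⟩
      have h5 : zpowers (x : T) = R :=
        zpowers_eq_of_card x.2 (by rw [hRc, orderOf_coe, hx, pow_one])
      rw [h5]
      exact hRn
  · -- the fixed points have order 3
    rw [h] at hdvd'
    have h5 : 3 = r := (Nat.prime_dvd_prime_iff_eq hp3 hr).mp (hp3.dvd_of_dvd_pow hdvd')
    subst h5
    rw [h, hRc] at hfix
    have hm1 : m = 1 := by
      by_contra hne
      have h6 : 3 * 3 ^ (m - 1) ≡ 3 * 1 [MOD 29] := by
        rw [← pow_succ', Nat.sub_add_cancel hm]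
        exact hfix
      have h7 : 3 ^ (m - 1) ≡ 1 [MOD 29] := Nat.ModEq.cancel_left_of_coprime (by norm_num) h6
      have h8 := ar29 hp3 ((pow_dvd_pow 3 (by omega)).trans hRT) (by omega) h7
      omega
    subst hm1
    rw [pow_one] at hRc
    have hRC : R ≤ centralizer {u} := by
      have h6 : R ⊓ centralizer {u} = R := by
        apply eq_of_le_of_card_ge inf_le_left
        rw [h, hRc]
      rw [← h6]
      exact inf_le_right
    have huR : u ∉ R := by
      intro h6
      have h7 : Nat.card (zpowers u) ∣ Nat.card R := card_dvd_of_le (zpowers_le.mpr h6)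
      rw [Nat.card_zpowers, hu, hRc] at h7
      norm_num at h7
    have hRneH : R ≠ H := by rintro rfl; exact huR huH
    obtain ⟨s, n, S, hsp, hn, hRS, hSH, hSn, hSc, hSe⟩ := elemSub H R hRH hRn hRneH hs
    have hfixS := cardFix hp u hu29 S (hSn huH)
    rw [hSc, hRc] at hfixS
    have hST : 3 * s ^ n ∣ mOrd := by
      rw [← h1, ← hRc, ← hSc]
      exact card_subgroup_dvd_card S
    have hST' : s ^ n ∣ mOrd := (Dvd.intro_left _ rfl).trans hST
    have hd1 : 3 ∣ Nat.card (S ⊓ centralizer {u} : Subgroup T) := by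
      rw [← hRc]
      exact card_dvd_of_le (le_inf hRS hRC)
    have hd2 : Nat.card (S ⊓ centralizer {u} : Subgroup T) ∣ 87 := by
      rw [← hC]
      exact card_dvd_of_le inf_le_right
    have hd3 : Nat.card (S ⊓ centralizer {u} : Subgroup T) = 3 ∨
        Nat.card (S ⊓ centralizer {u} : Subgroup T) = 87 := by
      rcases h87 _ hd2 with h6 | h6 | h6 | h6
      · rw [h6] at hd1; norm_num at hd1
      · exact Or.inl h6
      · rw [h6] at hd1; norm_num at hd1
      · exact Or.inr h6
    rcases hd3 with h6 | h6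
    · rw [h6] at hfixS
      have h7 : s ^ n ≡ 1 [MOD 29] :=
        Nat.ModEq.cancel_left_of_coprime (c := 3) (by norm_num) (by rw [mul_one]; exact hfixS)
      rcases ar29 hsp hST' hn h7 with ⟨rfl, rfl⟩ | ⟨rfl, rfl⟩
      · -- a Sylow 2-subgroup of S is elementary abelian of order 2^28
        exfalso
        apply h4
        have : Fact (Nat.Prime 2) := ⟨Nat.prime_two⟩
        obtain ⟨P, hP⟩ := Sylow.exists_subgroup_card_pow_prime (G := S) 2 (n := 28)
          (by rw [hSc]; exact Dvd.intro_left _ rfl)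
        refine ⟨P.map S.subtype, ?_, ?_⟩
        · rw [card_map_of_injective S.subtype_injective, hP]
        · rintro _ ⟨g, hg, rfl⟩
          have h8 : ((g : T) ^ 2) ^ 3 = 1 := by
            have h9 := hSe g g.2
            have h10 : (⟨(g : T) ^ 2, h9⟩ : R) ^ 3 = 1 := by
              rw [← hRc]
              exact pow_card_eq_one'
            have h11 := congrArg (fun z : R => (z : T)) h10
            simpa using h11
          have h9 : (g : T) ^ (2 ^ 28) = 1 := by
            have h10 : (⟨g, hg⟩ : P) ^ (2 ^ 28) = 1 := by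
              rw [← hP]
              exact pow_card_eq_one'
            have h11 := congrArg (fun z : P => ((z : S) : T)) h10
            simpa using h11
          rw [← pow_mul] at h8
          have h10 : orderOf (g : T) ∣ Nat.gcd (2 * 3) (2 ^ 28) :=
            Nat.dvd_gcd (orderOf_dvd_of_pow_eq_one h8) (orderOf_dvd_of_pow_eq_one h9)
          have h11 : Nat.gcd (2 * 3) (2 ^ 28) = 2 := by norm_num
          rw [h11] at h10
          exact orderOf_dvd_iff_pow_eq_one.mp h10
      · -- order 177: an element of order 59 commutes with one of order 3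
        exfalso
        have : Fact (Nat.Prime 59) := ⟨hp59⟩
        obtain ⟨x, hx⟩ := exists_prime_orderOf_dvd_card' (G := S) 59
          (by rw [hSc, pow_one]; exact Dvd.intro_left _ rfl)
        have hx' : orderOf (x : T) = 59 := by rw [orderOf_coe]; exact hx
        have h8 := cardFix hp59 (x : T) (by rw [← hx']; exact pow_orderOf_eq_one _) R
          (hRn (hSH x.2))
        have h9 : Nat.card (R ⊓ centralizer {(x : T)} : Subgroup T) ∣ 3 := by
          rw [← hRc]
          exact card_dvd_of_le inf_le_left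
        have h10 : Nat.card (R ⊓ centralizer {(x : T)} : Subgroup T) ∣ 59 := by
          rw [← h2 _ hx']
          exact card_dvd_of_le inf_le_right
        have h11 : Nat.card (R ⊓ centralizer {(x : T)} : Subgroup T) ∣ 1 := by
          have := Nat.dvd_gcd h9 h10
          simpa using this
        rw [Nat.dvd_one.mp h11, hRc] at h8
        revert h8
        decide
    · -- S = C(u)
      left
      have h7 : S ⊓ centralizer {u} = centralizer {u} := by
        apply eq_of_le_of_card_ge inf_le_right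
        rw [h6, hC]
      have hCS : centralizer {u} ≤ S := by
        rw [← h7]
        exact inf_le_left
      have h8 : 87 ∣ 3 * s ^ n := by
        rw [← hRc, ← hSc, ← hC]
        exact card_dvd_of_le hCS
      have h9 : 29 ∣ s ^ n := by
        have : 29 * 3 ∣ s ^ n * 3 := by rw [mul_comm (s ^ n)]; exact h8
        exact Nat.dvd_of_mul_dvd_mul_right (by norm_num) this
      have h10 : 29 = s := (Nat.prime_dvd_prime_iff_eq hp hsp).mp (hp.dvd_of_dvd_pow h9)
      subst h10
      have h11 : n ≤ 1 := exp_le hST' (by norm_num [mOrd])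
      have h12 : n = 1 := le_antisymm h11 hn
      subst h12
      have h13 : centralizer {u} = S := by
        apply eq_of_le_of_card_ge hCS
        rw [hSc, hRc, hC]
        norm_num
      intro g hg
      have huS : u ∈ S := by rw [← h13]; exact mem_centralizer_singleton_iff.mpr rfl
      have h14 : g * u * g⁻¹ ∈ centralizer {u} := by
        rw [h13]
        exact (mem_normalizer_iff.mp (hSn hg) u).mp huS
      have h15 : orderOf (g * u * g⁻¹) = 29 := by
        rw [← hu]
        exact (MulAut.conj g).orderOf_eq u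
      have h16 := mem_of_comm29 h3 hu h15 h14
      obtain ⟨k, hk⟩ := mem_zpowers_iff.mp h16
      apply mem_normalizer_fintype
      rintro _ ⟨j, rfl⟩
      refine mem_zpowers_iff.mpr ⟨k * j, ?_⟩
      rw [zpow_mul, hk]
      simp [conj_zpow]
  · -- the fixed points have order 29
    left
    rw [h] at hdvd'
    have h5 : 29 = r := (Nat.prime_dvd_prime_iff_eq hp hr).mp (hp.dvd_of_dvd_pow hdvd')
    subst h5
    have h11 : m ≤ 1 := exp_le hRT (by norm_num [mOrd])
    have h12 : m = 1 := le_antisymm h11 hm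
    subst h12
    rw [pow_one] at hRc
    have : Fact (Nat.Prime 29) := ⟨hp⟩
    obtain ⟨v, hv⟩ := exists_prime_orderOf_dvd_card' (G := R) 29 (by rw [hRc])
    have hv' : orderOf (v : T) = 29 := by rw [orderOf_coe]; exact hv
    have hRC : R ≤ centralizer {u} := by
      have h6 : R ⊓ centralizer {u} = R := by
        apply eq_of_le_of_card_ge inf_le_left
        rw [h, hRc]
      rw [← h6]
      exact inf_le_right
    have h6 : zpowers (v : T) = R := zpowers_eq_of_card v.2 (by rw [hRc, hv'])
    have h7 : (v : T) ∈ zpowers u := mem_of_comm29 h3 hu hv' (hRC v.2)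
    rw [zpowers_eq_of_mem (by rw [hu, hv']) h7, h6]
    exact hRn
  · -- impossible
    exfalso
    rw [h] at hdvd'
    have h5 : 3 = r := (Nat.prime_dvd_prime_iff_eq hp3 hr).mp
      (hp3.dvd_of_dvd_pow ((by norm_num : 3 ∣ 87).trans hdvd'))
    have h6 : 29 = r := (Nat.prime_dvd_prime_iff_eq hp hr).mp
      (hp.dvd_of_dvd_pow ((by norm_num : 29 ∣ 87).trans hdvd'))
    omega

end Pool.Agent.Lib.MP_3d4e6a_al
end

section

/-!
# MP_3d4e6a_al: elements at distance at most two from an element of order 59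
-/

namespace Pool.Agent.Lib.MP_3d4e6a_al

open Subgroup

variable {T : Type*} [Group T] [Finite T]

/-- `|N(⟨x⟩)| = 59 * 29` for `x` of order `59`. -/
theorem card_norm59 (h1 : Nat.card T = mOrd)
    (h2 : ∀ x : T, orderOf x = 59 → Nat.card (centralizer {x} : Subgroup T) = 59)
    {x : T} (hx : orderOf x = 59) :
    Nat.card (normalizer (zpowers x : Set T) : Subgroup T) = 59 * 29 := by
  have hp : Nat.Prime 59 := by norm_num
  have : Fact (Nat.Prime 59) := ⟨hp⟩
  obtain ⟨e, he, hc⟩ := card_normalizer hp x hx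
  rw [h2 x hx] at hc
  have hle : e ≤ 58 := Nat.le_of_dvd (by norm_num) he
  have hfac : (Nat.card T).factorization 59 = 1 := by
    rw [h1]
    have h5 : mOrd = 59 * (mOrd / 59) := by norm_num [mOrd]
    have h6 : ¬ 59 ∣ mOrd / 59 := by norm_num [mOrd]
    rw [h5, Nat.factorization_mul (by norm_num) (by norm_num [mOrd]), Finsupp.add_apply,
      hp.factorization_self, Nat.factorization_eq_zero_of_not_dvd h6]
  set P : Sylow 59 T := Sylow.ofCard (zpowers x)
    (by rw [hfac, pow_one, Nat.card_zpowers, hx]) with hP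
  have hPc : (P : Subgroup T) = zpowers x := rfl
  have h3 := P.card_eq_index_normalizer
  have h4 := card_sylow_modEq_one 59 T
  rw [h3] at h4
  have h5 := card_mul_index (normalizer (P : Set T) : Subgroup T)
  have h6 : (normalizer (P : Set T) : Subgroup T) = normalizer (zpowers x : Set T) := rfl
  rw [h6] at h4 h5
  rw [hc, h1] at h5
  set n := (normalizer (zpowers x : Set T) : Subgroup T).index with hn
  have h7 : e * n = mOrd / 59 := by
    have h8 : 59 * (e * n) = mOrd := by rw [← h5]; ring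
    rw [← h8, Nat.mul_div_cancel_left _ (by norm_num)]
  have h8 : e * n ≡ 29 [MOD 59] := by
    rw [h7]
    norm_num [mOrd, Nat.ModEq]
  have h9 : e * n ≡ e * 1 [MOD 59] := Nat.ModEq.mul_left e h4
  rw [mul_one] at h9
  have h10 : e ≡ 29 [MOD 59] := h9.symm.trans h8
  have h11 : e = 29 := by
    rw [Nat.ModEq, Nat.mod_eq_of_lt (by omega)] at h10
    exact h10
  rw [hc, h11]

/-- `|N(⟨u⟩)| ≤ 28 * 87` for `u` of order `29`. -/
theorem card_norm29
    (h3 : ∀ x : T, orderOf x = 29 → Nat.card (centralizer {x} : Subgroup T) = 87)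
    {u : T} (hu : orderOf u = 29) :
    Nat.card (normalizer (zpowers u : Set T) : Subgroup T) ≤ 28 * 87 := by
  obtain ⟨e, he, hc⟩ := card_normalizer (by norm_num) u hu
  rw [hc, h3 u hu]
  exact Nat.mul_le_mul_right 87 (Nat.le_of_dvd (by norm_num) he)

theorem conj_mem_normalizer {x g h : T} (hh : h ∈ normalizer (zpowers x : Set T)) :
    g * h * g⁻¹ ∈ normalizer (zpowers (g * x * g⁻¹) : Set T) := by
  apply mem_normalizer_fintype
  rintro _ ⟨k, rfl⟩
  have h1 := (mem_normalizer_iff.mp hh (x ^ k)).mp ⟨k, rfl⟩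
  obtain ⟨j, hj⟩ := h1
  refine ⟨j, ?_⟩
  simp only at hj ⊢
  rw [conj_zpow, conj_zpow, hj]
  group

theorem conj_mem_normalizer' {x g h : T} (hh : h ∈ normalizer (zpowers (g * x * g⁻¹) : Set T)) :
    g⁻¹ * h * g ∈ normalizer (zpowers x : Set T) := by
  have h1 := conj_mem_normalizer (g := g⁻¹) hh
  have h2 : g⁻¹ * (g * x * g⁻¹) * g⁻¹⁻¹ = x := by group
  rw [h2, inv_inv] at h1
  exact h1

theorem mem_normalizer_of_conj {u n : T} (h : n * u * n⁻¹ ∈ zpowers u) :
    n ∈ normalizer (zpowers u : Set T) := by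
  obtain ⟨k, hk⟩ := mem_zpowers_iff.mp h
  apply mem_normalizer_fintype
  rintro _ ⟨j, rfl⟩
  refine mem_zpowers_iff.mpr ⟨k * j, ?_⟩
  rw [zpow_mul, hk]
  simp [conj_zpow]

/-- Two subgroups of order `59` normalised by the same `u` of order `29` are conjugate under
`N(⟨u⟩)`. -/
theorem conj59 (h1 : Nat.card T = mOrd)
    (h2 : ∀ x : T, orderOf x = 59 → Nat.card (centralizer {x} : Subgroup T) = 59)
    {x y u : T} (hx : orderOf x = 59) (hy : orderOf y = 59) (hu : orderOf u = 29)
    (hux : u ∈ normalizer (zpowers x : Set T)) (huy : u ∈ normalizer (zpowers y : Set T)) :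
    ∃ n ∈ normalizer (zpowers u : Set T), n * x * n⁻¹ ∈ zpowers y := by
  have hp59 : Nat.Prime 59 := by norm_num
  have hp : Nat.Prime 29 := by norm_num
  obtain ⟨g, -, hg⟩ := sylow_conj (m := mOrd / 59) hp59 (⊤ : Subgroup T)
    (by rw [card_top, h1]; norm_num [mOrd]) (by norm_num [mOrd]) (mem_top y) (mem_top x) hy hx
  -- g x g⁻¹ ∈ ⟨y⟩
  have hgx : orderOf (g * x * g⁻¹) = 59 := by
    rw [← hx]; exact (MulAut.conj g).orderOf_eq x
  have hE : zpowers y = zpowers (g * x * g⁻¹) := zpowers_eq_of_mem (by rw [hy, hgx]) hg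
  have hgu : g * u * g⁻¹ ∈ normalizer (zpowers y : Set T) := by
    rw [hE]
    exact conj_mem_normalizer hux
  have hgu' : orderOf (g * u * g⁻¹) = 29 := by
    rw [← hu]; exact (MulAut.conj g).orderOf_eq u
  obtain ⟨h, hh, hk⟩ := sylow_conj (m := 59) hp (normalizer (zpowers y : Set T))
    (by rw [card_norm59 h1 h2 hy]) (by norm_num) huy hgu hu hgu'
  refine ⟨h * g, mem_normalizer_of_conj ?_, ?_⟩
  · have : h * g * u * (h * g)⁻¹ = h * (g * u * g⁻¹) * h⁻¹ := by group
    rw [this]
    exact hk
  · have : h * g * x * (h * g)⁻¹ = h * (g * x * g⁻¹) * h⁻¹ := by group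
    rw [this]
    exact (mem_normalizer_iff.mp hh _).mp hg

/-- The relation `⟨a, b⟩ is soluble`. -/
def Rel (a b : T) : Prop := Group.IsSolvable (closure {a, b})

/-- A nontrivial element of `N(⟨x⟩)`, `x` of order `59`, has order `29` or generates `⟨x⟩`. -/
theorem order_of_mem (h1 : Nat.card T = mOrd)
    (h2 : ∀ x : T, orderOf x = 59 → Nat.card (centralizer {x} : Subgroup T) = 59)
    {x v : T} (hx : orderOf x = 59) (hv : v ∈ normalizer (zpowers x : Set T)) (hv1 : v ≠ 1) :
    orderOf v = 29 ∨ (orderOf v = 59 ∧ zpowers v = zpowers x) := by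
  have hp59 : Nat.Prime 59 := by norm_num
  have hN := card_norm59 h1 h2 hx
  have hd : orderOf v ∣ 59 * 29 := by
    rw [← hN, ← Nat.card_zpowers]
    exact card_dvd_of_le (zpowers_le.mpr hv)
  have h87 : orderOf v = 1 ∨ orderOf v = 29 ∨ orderOf v = 59 ∨ orderOf v = 1711 := by
    have : orderOf v ∈ Nat.divisors (59 * 29) := Nat.mem_divisors.mpr ⟨hd, by norm_num⟩
    have h5 : Nat.divisors (59 * 29) = {1, 29, 59, 1711} := by decide +kernel
    rw [h5] at this
    simpa using this
  rcases h87 with h | h | h | h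
  · exact absurd (orderOf_eq_one_iff.mp h) hv1
  · exact Or.inl h
  · right
    refine ⟨h, ?_⟩
    obtain ⟨k, hk, hk'⟩ := sylow_conj (m := 29) hp59 (normalizer (zpowers x : Set T)) hN
      (by norm_num) (le_normalizer (mem_zpowers x)) hv hx h
    have h3 : v ∈ zpowers x := (mem_normalizer_iff.mp hk v).mpr hk'
    exact (zpowers_eq_of_mem (by rw [hx, h]) h3).symm
  · exfalso
    have h3 : orderOf (v ^ 29) = 59 := by
      rw [orderOf_pow' v (by norm_num), h]
      norm_num
    have h4 := h2 _ h3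
    have h5 : zpowers v ≤ centralizer {v ^ 29} := by
      rw [zpowers_le, mem_centralizer_singleton_iff]
      rw [← pow_succ, ← pow_succ']
    have h6 := card_dvd_of_le h5
    rw [h4, Nat.card_zpowers, h] at h6
    norm_num at h6

/-- Elements at distance at most two from `x`. -/
theorem second (h1 : Nat.card T = mOrd)
    (h2 : ∀ x : T, orderOf x = 59 → Nat.card (centralizer {x} : Subgroup T) = 59)
    (h3 : ∀ x : T, orderOf x = 29 → Nat.card (centralizer {x} : Subgroup T) = 87)
    (h4 : ¬ ∃ E : Subgroup T, Nat.card E = 2 ^ 28 ∧ ∀ g ∈ E, g ^ 2 = 1)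
    {x w : T} (hx : orderOf x = 59) (hw : orderOf w = 29)
    (hwx : w ∈ normalizer (zpowers x : Set T)) {v z : T}
    (hxv : Rel x v) (hvz : Rel v z) (hv : v ≠ 1) :
    (∃ k ∈ normalizer (zpowers x : Set T), ∃ n ∈ normalizer (zpowers w : Set T),
      z = k * n * k⁻¹) ∨
    (∃ k ∈ normalizer (zpowers x : Set T), ∃ h ∈ normalizer (zpowers x : Set T),
      ∃ n ∈ normalizer (zpowers w : Set T), z = k * (n * h * n⁻¹) * k⁻¹) := by
  have hvN : v ∈ normalizer (zpowers x : Set T) :=
    over59 h1 h2 hx hxv (subset_closure (by simp)) (subset_closure (by simp))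
  rcases order_of_mem h1 h2 hx hvN hv with hv29 | ⟨hv59, hE⟩
  · obtain ⟨k, hk, hk'⟩ := sylow_conj (m := 59) (by norm_num) (normalizer (zpowers x : Set T))
      (by rw [card_norm59 h1 h2 hx]) (by norm_num) hwx hvN hw hv29
    -- k v k⁻¹ ∈ ⟨w⟩
    have hkv : orderOf (k * v * k⁻¹) = 29 := by
      rw [← hv29]; exact (MulAut.conj k).orderOf_eq v
    have hEw : zpowers w = zpowers (k * v * k⁻¹) := zpowers_eq_of_mem (by rw [hw, hkv]) hk'
    have hconj : ∀ n ∈ normalizer (zpowers v : Set T), k * n * k⁻¹ ∈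
        normalizer (zpowers w : Set T) := by
      intro n hn
      rw [hEw]
      exact conj_mem_normalizer hn
    rcases over29 h1 h2 h3 h4 hv29 hvz (subset_closure (by simp)) with hle | ⟨y, hy, hle⟩
    · left
      have hz : z ∈ normalizer (zpowers v : Set T) := hle (subset_closure (by simp))
      refine ⟨k⁻¹, inv_mem hk, k * z * k⁻¹, hconj z hz, ?_⟩
      group
    · right
      have hvy : v ∈ normalizer (zpowers y : Set T) := hle (subset_closure (by simp))
      have hzy : z ∈ normalizer (zpowers y : Set T) := hle (subset_closure (by simp))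
      obtain ⟨n, hn, hn'⟩ := conj59 h1 h2 hx hy hv29 hvN hvy
      have hnx : orderOf (n * x * n⁻¹) = 59 := by
        rw [← hx]; exact (MulAut.conj n).orderOf_eq x
      have hEy : zpowers y = zpowers (n * x * n⁻¹) := zpowers_eq_of_mem (by rw [hy, hnx]) hn'
      rw [hEy] at hzy
      have h5 := conj_mem_normalizer' hzy
      refine ⟨k⁻¹, inv_mem hk, k * (n⁻¹ * z * n) * k⁻¹,
        mul_mem (mul_mem hk h5) (inv_mem hk), k * n * k⁻¹, hconj n hn, ?_⟩
      group
  · right
    have hz : z ∈ normalizer (zpowers x : Set T) := by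
      rw [← hE]
      exact over59 h1 h2 hv59 hvz (subset_closure (by simp)) (subset_closure (by simp))
    exact ⟨1, one_mem _, z, hz, 1, one_mem _, by group⟩

end Pool.Agent.Lib.MP_3d4e6a_al
end

section

/-!
# MP_3d4e6a_al: counting; two elements of order 59 at distance at least five
-/

namespace Pool.Agent.Lib.MP_3d4e6a_al

open Subgroup

variable {T : Type*} [Group T] [Finite T]

/-- If `|S|^2 c < |T|` and all centralisers of nontrivial elements have order at most `c` then some
conjugate of `S` meets `S` in `{1}` at most. -/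
theorem exists_conj_disjoint (S : Finset T) (c : ℕ)
    (hc : ∀ a : T, a ≠ 1 → Nat.card (centralizer {a} : Subgroup T) ≤ c)
    (hlt : S.card ^ 2 * c < Nat.card T) :
    ∃ g : T, ∀ a ∈ S, a ≠ 1 → g * a * g⁻¹ ∉ S := by
  classical
  have := Fintype.ofFinite T
  by_contra hcon
  push Not at hcon
  -- the bad elements
  have h1 : (Finset.univ : Finset T) ⊆ (S ×ˢ S).biUnion
      (fun p => Finset.univ.filter (fun g : T => p.1 ≠ 1 ∧ g * p.1 * g⁻¹ = p.2)) := by
    intro g _
    obtain ⟨a, ha, ha1, hb⟩ := hcon g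
    rw [Finset.mem_biUnion]
    exact ⟨(a, g * a * g⁻¹), Finset.mem_product.mpr ⟨ha, hb⟩, by simp [ha1]⟩
  have h2 : ∀ p ∈ S ×ˢ S, (Finset.univ.filter
      (fun g : T => p.1 ≠ 1 ∧ g * p.1 * g⁻¹ = p.2)).card ≤ c := by
    rintro ⟨a, b⟩ -
    by_cases hne : (Finset.univ.filter (fun g : T => a ≠ 1 ∧ g * a * g⁻¹ = b)).Nonempty
    · obtain ⟨g0, hg0⟩ := hne
      simp only [Finset.mem_filter, Finset.mem_univ, true_and] at hg0
      have h3 : (Finset.univ.filter (fun g : T => a ≠ 1 ∧ g * a * g⁻¹ = b)).card ≤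
          Nat.card (centralizer {a} : Subgroup T) := by
        rw [Nat.card_eq_fintype_card, ← Finset.card_univ]
        have h5 : ∀ g ∈ (Finset.univ.filter (fun g : T => a ≠ 1 ∧ g * a * g⁻¹ = b)),
            g0⁻¹ * g ∈ centralizer {a} := by
          intro g hg
          simp only [Finset.mem_filter, Finset.mem_univ, true_and] at hg
          rw [mem_centralizer_singleton_iff]
          have h6 : g0 * a * g0⁻¹ = g * a * g⁻¹ := by rw [hg0.2, hg.2]
          have h7 : g * a = g0 * a * g0⁻¹ * g := by rw [h6]; group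
          rw [mul_assoc, h7]
          group
        refine Finset.card_le_card_of_injOn (fun g => if h : g0⁻¹ * g ∈ centralizer {a} then
          (⟨g0⁻¹ * g, h⟩ : centralizer {a}) else 1) (fun _ _ => Finset.mem_coe.mpr (Finset.mem_univ _)) ?_
        intro g hg g' hg' heq
        have h6 := h5 g hg
        have h7 := h5 g' hg'
        simp only [h6, h7, dif_pos, Subtype.mk.injEq] at heq
        exact mul_left_cancel heq
      exact h3.trans (hc a hg0.1)
    · rw [Finset.not_nonempty_iff_eq_empty.mp hne]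
      simp
  have h3 := (Finset.card_le_card h1).trans (Finset.card_biUnion_le_card_mul _ _ _ h2)
  rw [Finset.card_univ, Finset.card_product, ← Nat.card_eq_fintype_card] at h3
  rw [pow_two] at hlt
  omega

omit [Finite T] in
theorem Rel.symm {a b : T} (h : Rel a b) : Rel b a := by
  unfold Rel at *
  rw [Set.pair_comm]
  exact h

theorem Rel.refl (a : T) : Rel a a := by
  unfold Rel
  rw [Set.pair_eq_singleton, ← zpowers_eq_closure]
  infer_instance

omit [Finite T] in
theorem Rel.conj {a b : T} (h : Rel a b) (g : T) : Rel (g * a * g⁻¹) (g * b * g⁻¹) := by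
  unfold Rel at *
  have h1 : closure {g * a * g⁻¹, g * b * g⁻¹} =
      (closure {a, b}).map (MulAut.conj g).toMonoidHom := by
    rw [MonoidHom.map_closure, Set.image_pair]
    rfl
  rw [h1]
  exact Group.isSolvable_of_surjective
    (MonoidHom.subgroupMap_surjective (MulAut.conj g).toMonoidHom (closure {a, b}))

/-- There are two elements of order `59` which cannot be joined by four steps. -/
theorem far (h1 : Nat.card T = mOrd)
    (h2 : ∀ x : T, orderOf x = 59 → Nat.card (centralizer {x} : Subgroup T) = 59)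
    (h3 : ∀ x : T, orderOf x = 29 → Nat.card (centralizer {x} : Subgroup T) = 87)
    (h4 : ¬ ∃ E : Subgroup T, Nat.card E = 2 ^ 28 ∧ ∀ g ∈ E, g ^ 2 = 1)
    (h5 : ∀ a : T, a ≠ 1 → Nat.card (centralizer {a} : Subgroup T) ≤
      8309562962452852382355161088000000) :
    ∃ x y : T, x ≠ 1 ∧ y ≠ 1 ∧ ∀ a b c : T, a ≠ 1 → b ≠ 1 → c ≠ 1 →
      Rel x a → Rel a b → Rel b c → Rel c y → False := by
  classical
  have := Fintype.ofFinite T
  have hp59 : Fact (Nat.Prime 59) := ⟨by norm_num⟩
  have hp29 : Fact (Nat.Prime 29) := ⟨by norm_num⟩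
  obtain ⟨x, hx⟩ := exists_prime_orderOf_dvd_card' (G := T) 59 (by rw [h1]; norm_num [mOrd])
  have hN := card_norm59 h1 h2 hx
  obtain ⟨w', hw'⟩ := exists_prime_orderOf_dvd_card'
    (G := (normalizer (zpowers x : Set T) : Subgroup T)) 29 (by rw [hN]; norm_num)
  set w : T := (w' : T) with hwd
  have hw : orderOf w = 29 := by rw [hwd, orderOf_coe]; exact hw'
  have hwx : w ∈ normalizer (zpowers x : Set T) := w'.2
  have hB := card_norm29 h3 hw
  set A : Finset T := Finset.univ.filter (fun g => g ∈ normalizer (zpowers x : Set T)) with hA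
  set B : Finset T := Finset.univ.filter (fun g => g ∈ normalizer (zpowers w : Set T)) with hBd
  have hAc : A.card = 59 * 29 := by
    rw [← hN, hA, Nat.card_eq_fintype_card, Fintype.card_subtype]
  have hBc : B.card ≤ 28 * 87 := by
    refine le_trans (le_of_eq ?_) hB
    rw [hBd, Nat.card_eq_fintype_card, Fintype.card_subtype]
  set S : Finset T := (A ×ˢ B).image (fun p => p.1 * p.2 * p.1⁻¹) ∪
    (A ×ˢ (A ×ˢ B)).image (fun p => p.1 * (p.2.2 * p.2.1 * p.2.2⁻¹) * p.1⁻¹) with hS
  have hSc : S.card ≤ 59 * 29 * (28 * 87) + 59 * 29 * (59 * 29 * (28 * 87)) := by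
    refine (Finset.card_union_le _ _).trans (Nat.add_le_add ?_ ?_)
    · refine Finset.card_image_le.trans ?_
      rw [Finset.card_product, hAc]
      exact Nat.mul_le_mul_left _ hBc
    · refine Finset.card_image_le.trans ?_
      rw [Finset.card_product, Finset.card_product, hAc]
      exact Nat.mul_le_mul_left _ (Nat.mul_le_mul_left _ hBc)
  have hmem : ∀ v z : T, v ≠ 1 → Rel x v → Rel v z → z ∈ S := by
    intro v z hv hxv hvz
    rw [hS, Finset.mem_union, Finset.mem_image, Finset.mem_image]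
    rcases second h1 h2 h3 h4 hx hw hwx hxv hvz hv with ⟨k, hk, n, hn, rfl⟩ |
      ⟨k, hk, h, hh, n, hn, rfl⟩
    · left
      exact ⟨(k, n), Finset.mem_product.mpr ⟨Finset.mem_filter.mpr ⟨Finset.mem_univ _, hk⟩,
        Finset.mem_filter.mpr ⟨Finset.mem_univ _, hn⟩⟩, rfl⟩
    · right
      exact ⟨(k, (h, n)), Finset.mem_product.mpr ⟨Finset.mem_filter.mpr ⟨Finset.mem_univ _, hk⟩,
        Finset.mem_product.mpr ⟨Finset.mem_filter.mpr ⟨Finset.mem_univ _, hh⟩,
        Finset.mem_filter.mpr ⟨Finset.mem_univ _, hn⟩⟩⟩, rfl⟩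
  obtain ⟨g, hg⟩ := exists_conj_disjoint S 8309562962452852382355161088000000 h5 (by
    rw [h1]
    refine lt_of_le_of_lt (Nat.mul_le_mul_right _ (Nat.pow_le_pow_left hSc 2)) ?_
    norm_num [mOrd])
  have hx1 : x ≠ 1 := by rintro rfl; simp at hx
  have hcne : ∀ (a : T), a ≠ 1 → g⁻¹ * a * g ≠ 1 := by
    intro a ha h
    apply ha
    have : a = g * (g⁻¹ * a * g) * g⁻¹ := by group
    rw [this, h]; group
  refine ⟨x, g * x * g⁻¹, hx1, ?_, ?_⟩
  · intro h'
    apply hx1
    have : x = g⁻¹ * (g * x * g⁻¹) * g := by group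
    rw [this, h']; group
  · intro a b c ha hb hc hxa hab hbc hcy
    have hbS : b ∈ S := hmem a b ha hxa hab
    have h6 := (hcy.symm).conj g⁻¹
    have h7 := (hbc.symm).conj g⁻¹
    rw [inv_inv] at h6 h7
    have h8 : g⁻¹ * (g * x * g⁻¹) * g = x := by group
    rw [h8] at h6
    have h9 : g⁻¹ * b * g ∈ S := hmem _ _ (hcne c hc) h6 h7
    apply hg _ h9 (hcne b hb)
    have h10 : g * (g⁻¹ * b * g) * g⁻¹ = b := by group
    rw [h10]
    exact hbS

end Pool.Agent.Lib.MP_3d4e6a_al
end

section

/-!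
# MP_3d4e6a_al: the soluble graph of a simple group with the data of the Monster
-/

namespace Pool.Agent.Lib.MP_3d4e6a_al

open Subgroup

/-- The soluble radical of a finite non-abelian simple group is trivial. -/
theorem solRadical_simple (T : Type*) [Group T] [IsSimpleGroup T]
    (hT : ¬ ∀ a b : T, a * b = b * a) : solRadical T = ⊥ := by
  rw [solRadical, sSup_eq_bot]
  rintro N ⟨hN, hs⟩
  rcases hN.eq_bot_or_eq_top with h | h
  · exact h
  · exfalso
    subst h
    apply hT
    rw [IsSimpleGroup.comm_iff_isSolvable]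
    exact Group.isSolvable_of_surjective (f := (topEquiv (G := T)).toMonoidHom)
      (topEquiv (G := T)).surjective

/-- The soluble graph has diameter at least `5`. -/
theorem five_le (T : Type*) [Group T] [Finite T] [IsSimpleGroup T]
    (h1 : Nat.card T = mOrd)
    (h2 : ∀ x : T, orderOf x = 59 → Nat.card (centralizer {x} : Subgroup T) = 59)
    (h3 : ∀ x : T, orderOf x = 29 → Nat.card (centralizer {x} : Subgroup T) = 87)
    (h4 : ¬ ∃ E : Subgroup T, Nat.card E = 2 ^ 28 ∧ ∀ g ∈ E, g ^ 2 = 1)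
    (h5 : ∀ a : T, a ≠ 1 → Nat.card (centralizer {a} : Subgroup T) ≤
      8309562962452852382355161088000000) (hT : ¬ ∀ a b : T, a * b = b * a) :
    5 ≤ (solGraph T).ediam := by
  have hrad := solRadical_simple T hT
  obtain ⟨x, y, hx, hy, hfar⟩ := far h1 h2 h3 h4 h5
  have hv : ∀ a : T, a ≠ 1 → a ∉ solRadical T := by
    intro a ha
    rw [hrad, mem_bot]
    exact ha
  have hv' : ∀ a : {a : T // a ∉ solRadical T}, (a : T) ≠ 1 := by
    rintro ⟨a, ha⟩ h
    apply ha
    change a = 1 at h
    rw [h]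
    exact one_mem _
  refine le_trans ?_ ((solGraph T).edist_le_ediam (u := ⟨x, hv x hx⟩) (v := ⟨y, hv y hy⟩))
  by_contra hcon
  rw [not_le] at hcon
  obtain ⟨p, hp⟩ := SimpleGraph.exists_walk_of_edist_ne_top (ne_top_of_lt hcon)
  rw [← hp] at hcon
  have hlen : p.length < 5 := by exact_mod_cast hcon
  have hstep : ∀ i, Rel ((p.getVert i : {a : T // a ∉ solRadical T}) : T)
      ((p.getVert (i + 1) : {a : T // a ∉ solRadical T}) : T) := by
    intro i
    by_cases hi : i < p.length
    · exact (p.adj_getVert_succ hi).2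
    · rw [p.getVert_of_length_le (by omega), p.getVert_of_length_le (by omega)]
      exact Rel.refl _
  have s0 := hstep 0
  have s1 := hstep 1
  have s2 := hstep 2
  have s3 := hstep 3
  rw [p.getVert_zero] at s0
  have h4' : p.getVert 4 = ⟨y, hv y hy⟩ := p.getVert_of_length_le (by omega)
  simp only [Nat.reduceAdd, zero_add] at s0 s1 s2 s3
  rw [h4'] at s3
  exact hfar _ _ _ (hv' _) (hv' _) (hv' _) s0 s1 s2 s3

theorem main (T : Type) [Group T] [Finite T] [IsSimpleGroup T]
    (h1 : Nat.card T = 808017424794512875886459904961710757005754368000000000)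
    (h2 : ∀ x : T, orderOf x = 59 → Nat.card (centralizer {x} : Subgroup T) = 59)
    (h3 : ∀ x : T, orderOf x = 29 → Nat.card (centralizer {x} : Subgroup T) = 87)
    (h4 : ¬ ∃ E : Subgroup T, Nat.card E = 2 ^ 28 ∧ ∀ g ∈ E, g ^ 2 = 1)
    (h5 : ∀ a : T, a ≠ 1 → Nat.card (centralizer {a} : Subgroup T) ≤
      8309562962452852382355161088000000) :
    5 ≤ (solGraph T).ediam ∧
      ∀ k : ℕ, 2 ≤ k → ∃ (G : Type) (_ : Group G) (_ : Finite G) (N : Subgroup G),
        Nonempty (N ≃* (Fin k → T)) ∧ IsMonolith N ∧ (solGraph G).ediam ≤ 3 := by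
  have hT : ¬ ∀ a b : T, a * b = b * a := by
    intro hcomm
    have : Fact (Nat.Prime 59) := ⟨by norm_num⟩
    obtain ⟨x, hx⟩ := exists_prime_orderOf_dvd_card' (G := T) 59 (by rw [h1]; norm_num)
    have h6 : (centralizer {x} : Subgroup T) = ⊤ := by
      rw [eq_top_iff]
      intro g _
      rw [mem_centralizer_singleton_iff]
      exact hcomm g x
    have h7 := h2 x hx
    rw [h6, card_top, h1] at h7
    norm_num at h7
  exact ⟨five_le T h1 h2 h3 h4 h5 hT, fun k hk => wreath T hT k hk⟩

end Pool.Agent.Lib.MP_3d4e6a_al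
end
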